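import Mathlib
import Pool.Agent.N131.FM.Cpair5

/-!
# MP_464c42_nt: Campana's conjecture for C-pairs over function fields, for all algebraic points

Let `k` be an algebraically closed field of characteristic zero, `F` a function field of one
variable over `k`, `X` a projective variety of dimension `w > 0` over `F` (possibly singular, possibly
not isotrivial), `S` a finite set of places of `F`, and let
`Δ = D_∞ + ∑ (1 - 1/m_l) D_l` be a C-pair structure on `X`: `D_∞` (multiplicity infinity) is a proper
closed subset and the `D_l = {G_l = 0}` are hypersurface sections with finite multiplicities `m_l ≥ 1`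
(for `X = ℙ^w`: arbitrary divisors). Let `R = (R_0 : … : R_ν)` be a rational map of `X` to a
projective space which is generically finite onto its image, and let `D₀` be the divisor
`R_0 ⋯ R_ν = 0`. For a point `x` of `X` over a finite extension `L` of `F` let the defect `δ_S(x)` be
the number, divided by `[L : F]`, of the places of `L`, not over `S`, at which `x` is not a morphism of
C-pairs: `x` reduces to a point of `D_∞`, or it meets some `D_l` with a multiplicity less than `m_l`.
So `δ_S(x) = 0` for the `S`-integral points of the C-pair `(X, Δ)`.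

If `(X, Δ)` is of general type, then
`h(x) ≤ C (d(x) + δ_S(x) + min (ρ_S(x), N_{S,<μ}(D₀, x)) + 1)`, and
`h(x) ≤ C (d(x) + δ_S(x) + 1)` if `D_∞` contains `D₀`.

Here `x` runs through **all** points of `X` over all finite extensions `L` of `F` (the degree is not
bounded) outside a proper closed subset `A = 0`, the constants `A`, `C` and `μ` do not depend on `x` and
`L`, `d` is the logarithmic discriminant, `N_{S,<μ}(D₀, x)` is the number, divided by `[L : F]`, of the
places of `L`, not over `S`, at which `x` meets `D₀` with a multiplicity less than `μ`, and `ρ_S(x)` is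
the number of the osculation places of the point `R(x)`, not over `S`, divided by `[L : F]`. In
particular, if `(X, Δ)` is of general type, the height of the `S`-integral points over `L` of the
C-pair `(X, Δ)` is at most `C (d(L) + 1)` outside a proper closed subset if `D_∞` contains `D₀` (then
`R` maps `X - D_∞` to a torus), and so is the height of those among them which meet `D₀` only with
multiplicities `≥ μ`.

Proof. The forms `ω_i ^ m x_c ^ E / ∏ G_l ^ (N m / m_l)`, where `m = ∏ m_l` and
`E = ∑ deg G_l N m / m_l`, have at most logarithmic poles along `D_∞ + ∑ D_l`; the master inequality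
for them (`N131.FM.fin1min`) bounds `m h(B(x)) + E h(x)` by `N m N^(1)_S(D_∞ + ∑ D_l, x)` and the error
terms, and the places at which `x` meets `D_l` with a multiplicity at least `m_l` contribute at most
`N m (deg G_l / m_l) h(x)`. The places at which `x` meets `D₀` with a multiplicity at least `μ`
contribute at most `(deg D₀ / μ) h(x)` to `N^(1)_S(D₀, x)`.
-/

set_option autoImplicit false

namespace Pool.Agent.Results.MP_464c42_nt.CPairsOverFunctionFields

open FF MvPolynomial
open Pool.Agent.W603.PV (disc under)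
open Pool.Agent.W602.GT (IsForm coords Divisorial IsPluri RegAt LogAt)

section fields

variable {k F : Type} [Field k] [IsAlgClosed k] [CharZero k] [Field F] [Algebra k F] [IsFF k F]

/-- A finite extension of `F`. -/
abbrev Ext (F : Type) [Field F] : Type := IntermediateField F (AlgebraicClosure F)

instance (L : Ext F) [FiniteDimensional F L] : IsFF k L := N131.FV.isFF_inter L

end fields

section points

variable (k : Type) {F : Type} [Field k] [Field F] [Algebra k F] {L : Ext F}

/-- The minimum of the orders of the nonzero coordinates of `x` at the place `P`. -/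
noncomputable def minOrd {k F : Type} [Field k] [Field F] [Algebra k F] {L : Ext F} {n : ℕ}
    (P : Place k L) (x : Fin (n + 1) → L) : ℤ :=
  ⨅ c : {c // x c ≠ 0}, P.ord (x c.1)

/-- The height of the point with the homogeneous coordinates `x`: minus the sum over all places of
`L` of the minimum of the orders of the coordinates, divided by `[L : F]`. -/
noncomputable def height {n : ℕ} (x : Fin (n + 1) → L) : ℝ :=
  ((-∑ᶠ P : Place k L, minOrd P x : ℤ) : ℝ) / Module.finrank F L

/-- The logarithmic discriminant of `L` over `F`: the sum over all places of `L` of the ramification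
index over `F` minus one, divided by `[L : F]`. -/
noncomputable def logDisc (L : Ext F) : ℝ := (disc k F L : ℝ) / Module.finrank F L

/-- The linear system of the coordinates of `z`, over `k`. -/
noncomputable abbrev system {n : ℕ} (z : Fin (n + 1) → L) : Submodule k L :=
  Submodule.span k (Set.range z)

/-- At `P` a nonzero element of the linear system of `z` has an order which is larger than the
smallest order by the dimension of the system, or more. -/
def Osculates {k F : Type} [Field k] [Field F] [Algebra k F] {L : Ext F} {n : ℕ}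
    (P : Place k L) (z : Fin (n + 1) → L) : Prop :=
  ∃ v ∈ system k z, v ≠ 0 ∧ minOrd P z + Module.finrank k (system k z) ≤ P.ord v

/-- The local height of `x` at `P` for the set `D` of the common zeros of the forms `Q_l`, of the
degrees `q_l`, is positive: `x` reduces to a point of `D` at `P`. -/
def Meets {k F : Type} [Field k] [Field F] [Algebra k F] {L : Ext F} {M s : ℕ}
    (Q : Fin (s + 1) → MvPolynomial (Fin (M + 1)) F) (q : Fin (s + 1) → ℕ) (P : Place k L)
    (x : Fin (M + 1) → L) : Prop :=
  ∀ l, aeval x (Q l) = 0 ∨ q l * minOrd P x < P.ord (aeval x (Q l))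

/-- At `P` the point `x` is not a point of the C-pair: it reduces to a point of the set `D_∞` of the
common zeros of the forms `Q_i`, of the degrees `q_i`, or it meets the divisor `G_l = 0`, `G_l` a form of
the degree `g_l`, for some `l`, with a multiplicity which is less than `m_l`. -/
def Bad {k F : Type} [Field k] [Field F] [Algebra k F] {L : Ext F} {M s r : ℕ}
    (Q : Fin (s + 1) → MvPolynomial (Fin (M + 1)) F) (q : Fin (s + 1) → ℕ)
    (G : Fin r → MvPolynomial (Fin (M + 1)) F) (g m : Fin r → ℕ) (P : Place k L)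
    (x : Fin (M + 1) → L) : Prop :=
  Meets Q q P x ∨ ∃ l, aeval x (G l) ≠ 0 ∧ g l * minOrd P x < P.ord (aeval x (G l)) ∧
    P.ord (aeval x (G l)) < g l * minOrd P x + m l

end points

section counting

variable {k F : Type} [Field k] [IsAlgClosed k] [CharZero k] [Field F] [Algebra k F] [IsFF k F]
  {L : Ext F} [FiniteDimensional F L]

/-- The number of the osculation places which are not over `S`, divided by `[L : F]`. -/
noncomputable def osculation (S : Finset (Place k F)) {n : ℕ} (z : Fin (n + 1) → L) : ℝ :=
  ({P : Place k L | under F P ∉ S ∧ Osculates P z}.ncard : ℝ) / Module.finrank F L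

/-- The defect: the number of the places of `L` which are not over `S` and at which `x` is not a point
of the C-pair, divided by `[L : F]`. It vanishes if `x` is an `S`-integral point of the C-pair. -/
noncomputable def defect (S : Finset (Place k F)) {M s r : ℕ}
    (Q : Fin (s + 1) → MvPolynomial (Fin (M + 1)) F) (q : Fin (s + 1) → ℕ)
    (G : Fin r → MvPolynomial (Fin (M + 1)) F) (g m : Fin r → ℕ) (x : Fin (M + 1) → L) : ℝ :=
  ({P : Place k L | under F P ∉ S ∧ Bad Q q G g m P x}.ncard : ℝ) / Module.finrank F L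

/-- The number of the places of `L` which are not over `S` and at which `x` meets the divisor `R = 0`,
`R` a form of the degree `d`, with a multiplicity which is less than `μ`, divided by `[L : F]`. -/
noncomputable def low (S : Finset (Place k F)) {M : ℕ} (R : MvPolynomial (Fin (M + 1)) F) (d μ : ℕ)
    (x : Fin (M + 1) → L) : ℝ :=
  ({P : Place k L | under F P ∉ S ∧ d * minOrd P x < P.ord (aeval x R) ∧
    P.ord (aeval x R) < d * minOrd P x + μ}.ncard : ℝ) / Module.finrank F L

end counting

section var

variable {F : Type} [Field F] {M : ℕ} {K : Type} [Field K] [Algebra F K]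

/-- `K` is the function field, `w` the dimension and `y` the generic point, in homogeneous
coordinates, of a closed subvariety of the projective space of dimension `M` over `F`. A form `G`
vanishes on the variety if and only if `G(y) = 0`. -/
structure Variety (F K : Type) [Field F] [Field K] [Algebra F K] (w : ℕ) (y : Fin (M + 1) → K) :
    Prop where
  ne : ∃ i, y i ≠ 0
  gen : coords F y = ⊤
  dim : Algebra.trdeg F K = w

/-- `x` is a point over `L` of the variety with the generic point `y`. -/
structure Point (y : Fin (M + 1) → K) {L : Ext F} (x : Fin (M + 1) → L) : Prop where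
  ne : x ≠ 0
  mem : ∀ G : MvPolynomial (Fin (M + 1)) F, IsForm G → aeval y G = 0 → aeval x G = 0

/-- The forms `R` of the degree `e`, none of which vanishes on the variety with the generic point `y`,
define a rational map of this variety which is generically finite onto its image. -/
structure GenFinite {ν : ℕ} (y : Fin (M + 1) → K) (e : ℕ)
    (R : Fin (ν + 1) → MvPolynomial (Fin (M + 1)) F) : Prop where
  hom : ∀ i, (R i).IsHomogeneous e
  ne : ∀ i, aeval y (R i) ≠ 0
  alg : Algebra.IsAlgebraic (IntermediateField.adjoin F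
    {z | ∃ i j, z = aeval y (R i) / aeval y (R j)}) K

/-- The centre of the place `P` of the function field lies in the set of the common zeros of the
forms `Q_l`, of the degrees `q_l`, on the variety with the generic point `y`. -/
def CentreIn {s : ℕ} (Q : Fin (s + 1) → MvPolynomial (Fin (M + 1)) F) (q : Fin (s + 1) → ℕ)
    (y : Fin (M + 1) → K) (P : Place F K) : Prop :=
  ∃ j, y j ≠ 0 ∧ (∀ i, P.Reg (y i / y j)) ∧
    ∀ l, aeval y (Q l) / y j ^ q l = 0 ∨ 1 ≤ P.ord (aeval y (Q l) / y j ^ q l)

/-- The C-pair structure `Δ = D_∞ + ∑ (1 - 1/m_l) D_l` on the variety with the generic point `y`: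
`D_∞` is the set of the common zeros of the forms `Q_i`, of the degrees `q_i`, not all of which
vanish on the variety, and `D_l` is the divisor of the form `G_l` of the degree `g_l`, which does not
vanish on the variety. -/
structure CPair {s r : ℕ} (Q : Fin (s + 1) → MvPolynomial (Fin (M + 1)) F) (q : Fin (s + 1) → ℕ)
    (G : Fin r → MvPolynomial (Fin (M + 1)) F) (g m : Fin r → ℕ) (y : Fin (M + 1) → K) :
    Prop where
  homQ : ∀ i, (Q i).IsHomogeneous (q i)
  neQ : ∃ i, aeval y (Q i) ≠ 0
  homG : ∀ l, (G l).IsHomogeneous (g l)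
  neG : ∀ l, aeval y (G l) ≠ 0
  pos : ∀ l, 0 < m l

/-- `ω_0, …, ω_t` are `N`-fold pluricanonical forms, not all zero, on the varieties with the function
field `K` of dimension `w`, which are sections of `N (K_X + Δ)`, where
`Δ = D_∞ + ∑ (1 - 1/m_l) D_l`: at every prime divisor `P` over `X`, with centre in the chart
`y_j ≠ 0`, the form `ω_i ^ m ∏ (G_l / y_j ^ g_l) ^ (- N m / m_l)`, where `m` is the product of the
`m_l`, has at most a logarithmic pole, and `ω_i` is regular at `P` if the centre of `P` is not in
`D_∞` and not in the `D_l`. (The exponent is written as `N ∏_{i ≠ l} m_i`.) -/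
structure PairForms {s r t : ℕ} (Q : Fin (s + 1) → MvPolynomial (Fin (M + 1)) F)
    (q : Fin (s + 1) → ℕ) (G : Fin r → MvPolynomial (Fin (M + 1)) F) (g m : Fin r → ℕ)
    (y : Fin (M + 1) → K) {w : ℕ} (N : ℕ)
    (ω : Fin (t + 1) → (Fin w → Derivation F K K) → K) : Prop where
  pluri : ∀ i, IsPluri N (ω i)
  log : ∀ P : Place F K, Divisorial w P → ∀ j, y j ≠ 0 → (∀ i, P.Reg (y i / y j)) →
    ∀ i, LogAt P (fun D => ω i D ^ (∏ l, m l) /
      ∏ l, (aeval y (G l) / y j ^ g l) ^ (N * ∏ l' ∈ Finset.univ.erase l, m l'))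
  reg : ∀ P : Place F K, Divisorial w P → ¬ CentreIn Q q y P →
    (∀ l, ¬ CentreIn (fun _ : Fin (0 + 1) => G l) (fun _ => g l) y P) → ∀ i, RegAt P (ω i)
  ne : ∃ i D, ω i D ≠ 0

/-- The forms `B` of the degree `b` define the rational map `(ω_0 : … : ω_t)`. -/
structure MapOf {t w : ℕ} (y : Fin (M + 1) → K) (ω : Fin (t + 1) → (Fin w → Derivation F K K) → K)
    (b : ℕ) (B : Fin (t + 1) → MvPolynomial (Fin (M + 1)) F) : Prop where
  hom : ∀ i, (B i).IsHomogeneous b
  ne : ∃ i, aeval y (B i) ≠ 0
  rel : ∀ i j D, ω i D * aeval y (B j) = ω j D * aeval y (B i)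

/-- The C-pair `(X, Δ)` is of general type, that is, `K_X + Δ` is big: for some `N > 0` there is a
nonzero section `θ` of `N (K_X + Δ) - H`, where `H` is the class of the hyperplane sections: all
`(y_c / y_j) θ` are sections of `N (K_X + Δ)`. -/
def GeneralType {s r : ℕ} (Q : Fin (s + 1) → MvPolynomial (Fin (M + 1)) F)
    (q : Fin (s + 1) → ℕ) (G : Fin r → MvPolynomial (Fin (M + 1)) F) (g m : Fin r → ℕ)
    (y : Fin (M + 1) → K) (w : ℕ) : Prop :=
  ∃ N : ℕ, 0 < N ∧ ∃ (θ : (Fin w → Derivation F K K) → K) (j : Fin (M + 1)), y j ≠ 0 ∧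
    PairForms Q q G g m y N (fun (c : Fin (M + 1)) D => y c / y j * θ D)

/-- The set `D_∞` of the common zeros of the forms `Q_i` on the variety with the generic point `y`
contains the zeros of the form `R` of the degree `d`: on the variety, a power of each `Q_i` is a
multiple of `R`. -/
def Contains {s : ℕ} (Q : Fin (s + 1) → MvPolynomial (Fin (M + 1)) F) (q : Fin (s + 1) → ℕ)
    (y : Fin (M + 1) → K) (R : MvPolynomial (Fin (M + 1)) F) (d : ℕ) : Prop :=
  ∀ i, ∃ (a τ : ℕ) (T : MvPolynomial (Fin (M + 1)) F), 0 < a ∧ T.IsHomogeneous τ ∧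
    a * q i = d + τ ∧ aeval y (Q i) ^ a = aeval y R * aeval y T

end var

theorem GenFinite.alg' {F : Type} [Field F] {M : ℕ} {K : Type} [Field K] [Algebra F K] {ν : ℕ}
    {y : Fin (M + 1) → K} {e : ℕ} {R : Fin (ν + 1) → MvPolynomial (Fin (M + 1)) F}
    (h : GenFinite y e R) : Algebra.IsAlgebraic (IntermediateField.adjoin F
      {z | ∃ i j, aeval y (R j) ≠ 0 ∧ z = aeval y (R i) / aeval y (R j)}) K := by
  have h1 : {z | ∃ i j, aeval y (R j) ≠ 0 ∧ z = aeval y (R i) / aeval y (R j)} =
      {z | ∃ i j, z = aeval y (R i) / aeval y (R j)} := by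
    ext z
    simp only [Set.mem_ofPred_eq, h.ne, ne_eq, not_false_eq_true, true_and]
  rw [h1]
  exact h.alg

/-- The remaining term `min (ρ_S(R(x)), N_{S,<μ}(D₀, x))`, where `D₀` is the divisor
`R_0 ⋯ R_ν = 0`. -/
noncomputable def remainder {k F : Type} [Field k] [IsAlgClosed k] [CharZero k] [Field F]
    [Algebra k F] [IsFF k F] {L : Ext F} [FiniteDimensional F L] (S : Finset (Place k F))
    {M ν : ℕ} (e : ℕ) (R : Fin (ν + 1) → MvPolynomial (Fin (M + 1)) F) (μ : ℕ)
    (x : Fin (M + 1) → L) : ℝ :=
  min (osculation S fun i => aeval x (R i)) (low S (∏ i, R i) ((ν + 1) * e) μ x)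

/-- The inequality for the heights `h(B(x))` given by sections of `N (K_X + Δ)`. -/
theorem part1 {k F : Type} [Field k] [IsAlgClosed k] [CharZero k] [Field F] [Algebra k F]
    [IsFF k F] {M w e ν s r : ℕ} {K : Type} [Field K] [Algebra F K] {y : Fin (M + 1) → K}
    (hX : Variety F K w y) (hw : 0 < w)
    {R : Fin (ν + 1) → MvPolynomial (Fin (M + 1)) F} (hR : GenFinite y e R)
    {Q : Fin (s + 1) → MvPolynomial (Fin (M + 1)) F} {q : Fin (s + 1) → ℕ}
    {G : Fin r → MvPolynomial (Fin (M + 1)) F} {g m : Fin r → ℕ} (hΔ : CPair Q q G g m y)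
    (S : Finset (Place k F)) {N t b : ℕ} {ω : Fin (t + 1) → (Fin w → Derivation F K K) → K}
    (hω : PairForms Q q G g m y N ω) {B : Fin (t + 1) → MvPolynomial (Fin (M + 1)) F}
    (hB : MapOf y ω b B) {ε : ℝ} (hε : 0 < ε) :
    ∃ A : MvPolynomial (Fin (M + 1)) F, IsForm A ∧ aeval y A ≠ 0 ∧ ∃ (C : ℝ) (μ : ℕ), 0 ≤ C ∧
      ∀ (L : Ext F) [FiniteDimensional F L] (x : Fin (M + 1) → L), Point y x → aeval x A ≠ 0 →
        height k (fun i => aeval x (B i)) ≤ N * defect S Q q G g m x + ε * height k x +
          C * (logDisc k L + remainder S e R μ x + 1) := by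
  obtain ⟨A, hA, hA0, C, μ, hC0, hC⟩ := N131.FM.cp2 hX.gen hX.ne hR.hom hR.ne hR.alg' hw hX.dim
    hΔ.homQ hΔ.neQ hΔ.homG hΔ.neG hΔ.pos hω.pluri hω.log hω.reg hB.hom hB.rel hB.ne hω.ne S hε
  refine ⟨A, hA, hA0, C, μ, hC0, fun L _ x hx hxA => ?_⟩
  have h1 := hC L x ⟨Function.ne_iff.1 hx.ne, hx.mem⟩ hxA
  have hf : (0 : ℝ) < Module.finrank F L := by
    exact_mod_cast Module.finrank_pos (R := F) (M := L)
  unfold height logDisc defect remainder low osculation
  rw [div_le_iff₀ hf, min_div_div_right hf.le]
  refine le_trans h1 (le_of_eq ?_)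
  field_simp
  rfl

theorem remainder_nonneg {k F : Type} [Field k] [IsAlgClosed k] [CharZero k] [Field F]
    [Algebra k F] [IsFF k F] {L : Ext F} [FiniteDimensional F L] (S : Finset (Place k F))
    {M ν : ℕ} (e : ℕ) (R : Fin (ν + 1) → MvPolynomial (Fin (M + 1)) F) (μ : ℕ)
    (x : Fin (M + 1) → L) : 0 ≤ remainder S e R μ x := by
  unfold remainder low osculation
  positivity

/-- Let `y` be the generic point of the projective variety `X` of dimension `w > 0` over `F`, let the
forms `R_i` of the degree `e` define a rational map of `X` to a projective space which is generically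
finite onto its image, let `D₀` be the divisor `R_0 ⋯ R_ν = 0`, and let
`Δ = D_∞ + ∑ (1 - 1/m_l) D_l` be a C-pair structure on `X`.

Let `(X, Δ)` be of general type. There are a form `A` over `F` which does not vanish on `X` and
numbers `C` and `μ` such that
`h(x) ≤ C (d(L) + δ_S(x) + min (ρ_S(R(x)), N_{S,<μ}(D₀, x)) + 1)` for all finite
extensions `L` of `F` and all points `x` of `X` over `L` with `A(x) ≠ 0`; and if `D_∞` contains
`D₀`, then `h(x) ≤ C (d(L) + δ_S(x) + 1)` for these points. -/
theorem result {k F : Type} [Field k] [IsAlgClosed k] [CharZero k] [Field F] [Algebra k F]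
    [IsFF k F] {M w e ν s r : ℕ} {K : Type} [Field K] [Algebra F K] {y : Fin (M + 1) → K}
    (hX : Variety F K w y) (hw : 0 < w)
    {R : Fin (ν + 1) → MvPolynomial (Fin (M + 1)) F} (hR : GenFinite y e R)
    {Q : Fin (s + 1) → MvPolynomial (Fin (M + 1)) F} {q : Fin (s + 1) → ℕ}
    {G : Fin r → MvPolynomial (Fin (M + 1)) F} {g m : Fin r → ℕ} (hΔ : CPair Q q G g m y)
    (hgt : GeneralType Q q G g m y w) (S : Finset (Place k F)) :
    ∃ A : MvPolynomial (Fin (M + 1)) F, IsForm A ∧ aeval y A ≠ 0 ∧ ∃ (C : ℝ) (μ : ℕ),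
      ∀ (L : Ext F) [FiniteDimensional F L] (x : Fin (M + 1) → L), Point y x → aeval x A ≠ 0 →
        height k x ≤ C * (logDisc k L + defect S Q q G g m x + remainder S e R μ x + 1) ∧
        (Contains Q q y (∏ i, R i) ((ν + 1) * e) →
          height k x ≤ C * (logDisc k L + defect S Q q G g m x + 1)) := by
  classical
  obtain ⟨N, hN, θ, j, hj, hω⟩ := hgt
  have hB : MapOf y (fun (c : Fin (M + 1)) D => y c / y j * θ D) 1
      (fun c => (X c : MvPolynomial (Fin (M + 1)) F)) :=
    ⟨fun c => isHomogeneous_X F c, ⟨j, by rwa [aeval_X]⟩, fun i i' D => by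
      rw [aeval_X, aeval_X]; ring⟩
  obtain ⟨A, ⟨a, ha⟩, hA0, C, μ, hC0, hC⟩ := part1 hX hw hR hΔ S hω hB (ε := 1 / 2) (by norm_num)
  obtain ⟨l0, hl0⟩ := hΔ.neQ
  have hRh : (∏ i, R i).IsHomogeneous ((ν + 1) * e) := by
    have h1 : (∏ j, R j).IsHomogeneous (∑ _j : Fin (ν + 1), e) :=
      IsHomogeneous.prod _ _ _ fun i _ => hR.hom i
    rwa [Finset.sum_const, Finset.card_univ, Fintype.card_fin, smul_eq_mul] at h1
  have hR0 : aeval y (∏ i, R i) ≠ 0 := by
    rw [map_prod]
    exact Finset.prod_ne_zero_iff.2 fun i _ => hR.ne i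
  obtain ⟨C', hC'⟩ : ∃ C' : ℕ, Contains Q q y (∏ i, R i) ((ν + 1) * e) →
      ∀ (L : Type) [Field L] [Algebra k L] [Algebra F L] [IsScalarTower k F L]
        [FiniteDimensional F L] [IsFF k L] (x : Fin (M + 1) → L), N131.FM.Pt (F := F) y x →
        aeval x (∏ i, R i) ≠ 0 → aeval x (Q l0) ≠ 0 →
        {P : Place k L | under F P ∉ S ∧ P ∈ N131.FM.ZD (k := k) (fun _ : Fin (0 + 1) => ∏ i, R i)
          (fun _ => (ν + 1) * e) x}.ncard ≤
        {P : Place k L | under F P ∉ S ∧ P ∈ N131.FM.ZD (k := k) Q q x}.ncard +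
          C' * Module.finrank F L := by
    by_cases h : Contains Q q y (∏ i, R i) ((ν + 1) * e)
    · obtain ⟨C', hC'⟩ := N131.FM.zd_le (k := k) (y := y) (l0 := l0) S hΔ.homQ hRh h
      exact ⟨C', fun _ => hC'⟩
    · exact ⟨0, fun h' => absurd h' h⟩
  have hCN : 0 ≤ 2 * (N + C) * (C' + 2) := by positivity
  refine ⟨A * (∏ i, R i) * Q l0, ⟨_, (ha.mul hRh).mul (hΔ.homQ l0)⟩, ?_,
    2 * (N + C) * (C' + 2), μ, fun L _ x hx hxA => ?_⟩
  · rw [map_mul, map_mul]
    exact mul_ne_zero (mul_ne_zero hA0 hR0) hl0
  rw [map_mul, map_mul] at hxA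
  have hxQ := right_ne_zero_of_mul hxA
  have hxR := right_ne_zero_of_mul (left_ne_zero_of_mul hxA)
  have hxA' := left_ne_zero_of_mul (left_ne_zero_of_mul hxA)
  have h1 := hC L x hx hxA'
  simp only [aeval_X] at h1
  have h1' : height k x ≤ N * defect S Q q G g m x + 1 / 2 * height k x +
      C * (logDisc k L + remainder S e R μ x + 1) := h1
  have hf : (0 : ℝ) < Module.finrank F L := by
    exact_mod_cast Module.finrank_pos (R := F) (M := L)
  have hd : 0 ≤ logDisc k L := by
    have h2 : (0 : ℤ) ≤ disc k F L := N131.FM.disc_nn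
    unfold logDisc
    have h3 : (0 : ℝ) ≤ (disc k F L : ℝ) := by exact_mod_cast h2
    positivity
  have hδ : 0 ≤ defect S Q q G g m x := by unfold defect; positivity
  have hρ : 0 ≤ remainder S e R μ x := remainder_nonneg S e R μ x
  have hNR : (0 : ℝ) ≤ N := Nat.cast_nonneg _
  have hC'R : (0 : ℝ) ≤ C' := Nat.cast_nonneg _
  have h2 : height k x ≤ 2 * (N + C) *
      (logDisc k L + defect S Q q G g m x + remainder S e R μ x + 1) := by
    have h3 : 0 ≤ (N : ℝ) * (logDisc k L + remainder S e R μ x + 1) := by positivity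
    have h4 : 0 ≤ C * defect S Q q G g m x := by positivity
    nlinarith
  refine ⟨h2.trans ?_, fun hcon => ?_⟩
  · refine mul_le_mul_of_nonneg_right ?_ (by positivity)
    have h3 : 0 ≤ 2 * ((N : ℝ) + C) := by positivity
    nlinarith
  · have h3 := hC' hcon L x ⟨Function.ne_iff.1 hx.ne, hx.mem⟩ hxR hxQ
    have h4 : {P : Place k L | under F P ∉ S ∧ P ∈ N131.FM.ZD (k := k) Q q x}.ncard ≤
        (N131.FM.CB S Q q G g m x).ncard := by
      refine Set.ncard_le_ncard (fun P hP => ⟨hP.1, Or.inl hP.2⟩) ?_
      exact N131.FM.CB_finite S hΔ.homG ⟨_, (Function.ne_iff.1 hx.ne).choose_spec⟩ hxQ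
    have h8 : (N131.FM.LW S (∏ i, R i) ((ν + 1) * e) μ x).ncard ≤
        {P : Place k L | under F P ∉ S ∧ P ∈ N131.FM.ZD (k := k) (fun _ : Fin (0 + 1) => ∏ i, R i)
          (fun _ => (ν + 1) * e) x}.ncard := by
      exact N131.FM.lw_sub S (Function.ne_iff.1 hx.ne) hxR
    have h5 : remainder S e R μ x ≤ defect S Q q G g m x + C' := by
      unfold remainder
      refine (min_le_right _ _).trans ?_
      unfold low defect
      rw [div_add' _ _ _ hf.ne']
      refine div_le_div_of_nonneg_right ?_ hf.le
      have h6 := h8.trans (h3.trans (add_le_add h4 le_rfl))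
      exact_mod_cast h6
    have h6 : logDisc k L + defect S Q q G g m x + remainder S e R μ x + 1 ≤
        (C' + 2) * (logDisc k L + defect S Q q G g m x + 1) := by
      have h7 : 0 ≤ (C' : ℝ) * (logDisc k L + defect S Q q G g m x) := by positivity
      nlinarith
    refine h2.trans ?_
    rw [mul_assoc (2 * ((N : ℝ) + C))]
    exact mul_le_mul_of_nonneg_left h6 (by positivity)

end Pool.Agent.Results.MP_464c42_nt.CPairsOverFunctionFields
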