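import Mathlib
import Pool.Agent.N626.Jn

set_option autoImplicit false

/-!
# Monic P-recursive sequences of points on affine varieties of logarithmic general type

The varieties are affine: closed subvarieties of the affine space `X_0 ≠ 0` in projective `n`-space,
given by forms `F`; points are normalised by `x_0 = 1`. A sequence `x : ℕ → X(L)` over a field `L`
(`RecSeq F r e x`) is considered if each coordinate `a` satisfies a monic linear recurrence
`a (m + r) = p_0(m) a (m) + … + p_{r-1}(m) a (m + r - 1)` with polynomials `p_i` over `L` of degree at
most `e` (`MRec r e a`). Examples are the sequences of integral points given by polynomials in `m`,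
exponentials `a ^ m`, factorials `m!`, `∑_{j ≤ m} j!`, and their sums and products. The condition that
the recurrence is monic is a condition of integrality: the sequence `1 / (m + 1)` of points of the
curve `A^1 - {0, 2}` of logarithmic general type satisfies `(m + 2) a (m + 1) = (m + 1) a (m)`.

**Theorem.**

(1) Let `X` be affine over a field `k` of characteristic zero (of cardinality at most the
continuum). For all `r`, `e` there is a number `T` such that, for all fields `L ⊇ k` and all these
sequences `x` of points of `X` over `L`, all but at most `T` points of `x` lie in the Zariski closure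
of the union of the nonconstant curves of degree at most `T` in `X` which are images of the punctured
line (`PLine T F M p`: over an extension `M` of `k`, given by polynomials `p` of degree at most `T`
with `p_0 = c t ^ j`).

(2) If `X` is an affine complex variety of logarithmic general type, then for all `r`, `e` there are
a number `B` and one proper closed subset `Z = X ∩ {G = 0}` such that, for all fields `L ⊇ ℂ`, all
these sequences have at most `B` points outside `Z`.

(3) For `X`, `k` as in (1) and a closed subset `Z` of `X`, the following are equivalent: all
nonconstant images of the punctured line in `X`, over all extensions of `k`, lie in `Z`; there are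
numbers `B r e` such that all these sequences, over all extensions of `k`, have at most `B r e` points
outside `Z`; all sequences over finite extensions of `k` with recurrences with constant coefficients
have finitely many points outside `Z`.

(4) If `k` is a number field, then the last condition is only needed for sequences of integral points
over rings `O_L[1/N]`. In particular, if the conjecture of Lang and Vojta holds for `X` and `Z`, in
the form that `X(O_L[1/N])` has only finitely many points outside `Z`, for all number fields `L ⊇ k`
and all `N`, then `B r e` as in (3) exist for all fields `L ⊇ k`.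

Method: Noetherian induction on the ideals of relations between the index, the terms of the
sequence and the coefficients of the recurrences (`core_log`). The generic member of a maximal family
without a bound is a point over a difference field, with coordinates given by linear difference
equations. If one coordinate is transcendental over the field of rational functions of the index, then
there is a family of images of the punctured line with the same vanishing forms (`dif_main'`).
Otherwise the coordinates are rational functions of the index over a field fixed by a power of the
shift. As the equations are monic, they are polynomials (`poly_of_monic`), and the affine lines given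
by them have the same vanishing forms, or the point is fixed by a power of the shift.
-/

namespace Pool.Agent.Results.MP_464c42_nt.HolonomicIntegralPoints

open MvPolynomial Pool.Agent.N626
open Pool.Agent.TH143.GT (FunField)
open Pool.Agent.W602.GT (IsForm LogGeneralType)
open Pool.Agent.W603.GR (OffQ)

/-- **Monic P-recursive sequences of points on affine varieties.** -/
theorem result :
    (∀ (k : Type) [Field k] [CharZero k], Cardinal.mk k ≤ Cardinal.continuum →
      ∀ (n : ℕ) (ι : Type) (F : ι → MvPolynomial (Fin (n + 1)) k),
        (∀ i, ∃ d, (F i).IsHomogeneous d) → ∀ r e : ℕ, ∃ T : ℕ,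
          ∀ (L : Type) [Field L] [Algebra k L] (x : ℕ → Fin (n + 1) → L), RecSeq F r e x →
            ({y | ∃ m, OffPL T F (x m) ∧ y = x m} : Set (Fin (n + 1) → L)).encard ≤ T) ∧
    (∀ (n : ℕ) (p : Ideal (MvPolynomial (Fin (n + 1)) ℂ)) (K : Type) [Field K] [Algebra ℂ K]
      (w : ℕ) (y : Fin (n + 1) → K), FunField p (X 0) K w y →
        LogGeneralType ℂ K w (OffQ (X 0) 1 y) → ∀ r e : ℕ,
          ∃ (B : ℕ) (G : MvPolynomial (Fin (n + 1)) ℂ), IsForm G ∧ G ∉ p ∧
            ∀ (L : Type) [Field L] [Algebra ℂ L] (x : ℕ → Fin (n + 1) → L),
              RecSeq (formsOf p) r e x → (offG (fun _ : Unit => G) x).encard ≤ B) ∧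
    (∀ (k : Type) [Field k] [CharZero k], Cardinal.mk k ≤ Cardinal.continuum →
      ∀ (n : ℕ) (ι κ : Type) (F : ι → MvPolynomial (Fin (n + 1)) k)
        (G : κ → MvPolynomial (Fin (n + 1)) k),
        (∀ i, ∃ d, (F i).IsHomogeneous d) → (∀ l, ∃ d, (G l).IsHomogeneous d) →
          List.TFAE [CurvesIn F G, UnifBounded F G, FinExt F G]) ∧
    (∀ (k : Type) [Field k] [NumberField k] (n : ℕ) (ι κ : Type)
      (F : ι → MvPolynomial (Fin (n + 1)) k) (G : κ → MvPolynomial (Fin (n + 1)) k),
      (∀ i, ∃ d, (F i).IsHomogeneous d) → (∀ l, ∃ d, (G l).IsHomogeneous d) →
        List.TFAE [CurvesIn F G, UnifBounded F G, IntFinite F G] ∧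
          (LangVojta F G → UnifBounded F G)) := by
  refine ⟨fun k _ _ hk n ι F hF r e => ?_, fun n p K _ _ w y hy hL r e => lgt_bounded hy hL r e,
    fun k _ _ hk n ι κ F G hF hG => ?_, fun k _ _ n ι κ F G hF hG => ?_⟩
  · obtain ⟨T, hT⟩ := scalar_log hk F hF r e
    exact ⟨T, fun L _ _ x hx => hT L x hx.mrec hx.one hx.on⟩
  · tfae_have 1 → 2 := unif_of_curves hk hF hG
    tfae_have 2 → 3 := fun ⟨B, hB⟩ r L _ _ _ x hx =>
      Set.finite_of_encard_le_coe (hB r 0 L x hx)
    tfae_have 3 → 1 := curves_of_finExt hF hG
    tfae_finish
  · have hk : Cardinal.mk k ≤ Cardinal.continuum := by
      have h1 : Cardinal.mk k ≤ max (Cardinal.mk ℚ) Cardinal.aleph0 :=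
        Algebra.IsAlgebraic.cardinalMk_le_max ℚ k
      exact h1.trans (max_le (Cardinal.mk_le_aleph0.trans Cardinal.aleph0_le_continuum)
        Cardinal.aleph0_le_continuum)
    have h12 : CurvesIn F G → UnifBounded F G := unif_of_curves hk hF hG
    refine ⟨?_, fun h => h12 (curves_of_intFinite hF hG (intFinite_of_langVojta h))⟩
    tfae_have 1 → 2 := h12
    tfae_have 2 → 3 := fun ⟨B, hB⟩ r L _ _ _ N x _ _ hx =>
      Set.finite_of_encard_le_coe (hB r 0 L x hx)
    tfae_have 3 → 1 := curves_of_intFinite hF hG
    tfae_finish

end Pool.Agent.Results.MP_464c42_nt.HolonomicIntegralPoints
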