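import Mathlib
import Pool.Agent.N754.LG.Use
import Pool.Agent.N754.LT.Fin

/-!
MP_464c42_nt, Q1 with all multiplicities infinite (integral points): affine varieties over number
fields whose function field is generated by units.
-/

set_option autoImplicit false
set_option linter.overlappingInstances false

namespace Pool.Agent.Results.MP_464c42_nt.LogGeneralType

open MvPolynomial NumberField IsDedekindDomain FF Pool.Agent.W603.LV Pool.Agent.H159R3.Exp
  Pool.Agent.W602.GT

variable {K : Type} [Field K] {n : ℕ}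

/-- The complex points of the closed subset `V(I)` of affine space, for the embedding `σ` of the
base field. -/
def Pts (σ : K →+* ℂ) (I : Ideal (MvPolynomial (Fin n) K)) : Set (Fin n → ℂ) :=
  {z | ∀ Q ∈ I, eval₂ σ z Q = 0}

/-- The function field of `V(p)` is generated by the coordinates with index in `U`. Here `M` is the
function field, and `y` the generic point. -/
def GeneratedBy (p : Ideal (MvPolynomial (Fin n) K)) (U : Finset (Fin n)) : Prop :=
  ∃ (M : Type) (_ : Field M) (_ : Algebra K M) (y : Fin n → M),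
    (∀ Q, aeval y Q = 0 ↔ Q ∈ p) ∧ IntermediateField.adjoin K (y '' (U : Set (Fin n))) = ⊤

/-- The variety `V(p)` is of logarithmic general type. Here `M` is its function field, `y` its
generic point, and the places of `M` with a pole of some coordinate are those without centre on
`V(p)`. -/
def OfLogGeneralType (p : Ideal (MvPolynomial (Fin n) K)) : Prop :=
  ∃ (M : Type) (_ : Field M) (_ : Algebra K M) (y : Fin n → M) (w : ℕ),
    (∀ Q, aeval y Q = 0 ↔ Q ∈ p) ∧ IntermediateField.adjoin K (Set.range y) = ⊤ ∧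
    LogGeneralType K M w fun P => ∃ j, P.ord (y j) < 0

/-- The points of `V(I)` with coordinates in the ring `O_{L,S}`. -/
def IntPts (I : Ideal (MvPolynomial (Fin n) K)) (L : Type) [Field L] [NumberField L] [Algebra K L]
    (S : Set (HeightOneSpectrum (𝓞 L))) : Set (Fin n → L) :=
  {x | (∀ j, x j ∈ S.integer L) ∧ ∀ Q ∈ I, aeval x Q = 0}

/-- For all finite extensions `L` of `K` and all finite `S`, all but finitely many points of `V(I)`
over `O_{L,S}` lie in `V(J)`. -/
def IntegralIn (I J : Ideal (MvPolynomial (Fin n) K)) : Prop :=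
  ∀ (L : Type) [Field L] [NumberField L] [Algebra K L] (S : Set (HeightOneSpectrum (𝓞 L))),
    S.Finite → (IntPts I L S \ IntPts J L S).Finite

/-- The nonconstant entire curves in `V(I)` lie in `V(J)`. -/
def EntireIn (σ : K →+* ℂ) (I J : Ideal (MvPolynomial (Fin n) K)) : Prop :=
  ∀ f : ℂ → Fin n → ℂ, Differentiable ℂ f → (∀ z, f z ∈ Pts σ I) → (∃ z w, f z ≠ f w) →
    ∀ z, f z ∈ Pts σ J

/-- The nonconstant maps `t ↦ v t`, `t ≠ 0`, to `V(I)` with Laurent coordinates (the nonconstant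
morphisms from `𝔾ₘ`) have image in `V(J)`. -/
def LaurentIn (σ : K →+* ℂ) (I J : Ideal (MvPolynomial (Fin n) K)) : Prop :=
  ∀ v : ℂ → Fin n → ℂ, (∀ j, Laur fun t => v t j) → (∀ t, t ≠ 0 → v t ∈ Pts σ I) →
    (∃ s t, s ≠ 0 ∧ t ≠ 0 ∧ v s ≠ v t) → ∀ t, t ≠ 0 → v t ∈ Pts σ J

/-- clearing denominators -/
theorem exists_clear [NumberField K] (Q : MvPolynomial (Fin n) K) :
    ∃ (c : 𝓞 K) (Q' : MvPolynomial (Fin n) (𝓞 K)), c ≠ 0 ∧
      map (algebraMap (𝓞 K) K) Q' = C (algebraMap (𝓞 K) K c) * Q := by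
  classical
  obtain ⟨c, hc⟩ := IsLocalization.exist_integer_multiples (nonZeroDivisors (𝓞 K)) Q.support
    fun m => Q.coeff m
  choose! g hg using hc
  refine ⟨c, ∑ m ∈ Q.support, monomial m (g m), nonZeroDivisors.ne_zero c.2, ?_⟩
  ext m
  rw [map_sum, coeff_sum, coeff_C_mul]
  simp only [map_monomial, coeff_monomial]
  rw [Finset.sum_ite_eq']
  split_ifs with h
  · rw [hg m h]
    exact Algebra.smul_def _ _
  · rw [notMem_support_iff.1 h, mul_zero]

theorem eval₂_clear [NumberField K] {Q : MvPolynomial (Fin n) K} {c : 𝓞 K} (hc : c ≠ 0)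
    {Q' : MvPolynomial (Fin n) (𝓞 K)}
    (h : map (algebraMap (𝓞 K) K) Q' = C (algebraMap (𝓞 K) K c) * Q) {R : Type} [Field R]
    (τ : K →+* R) (x : Fin n → R) :
    eval₂ (τ.comp (algebraMap (𝓞 K) K)) x Q' = 0 ↔ eval₂ τ x Q = 0 := by
  have h1 : eval₂ (τ.comp (algebraMap (𝓞 K) K)) x Q' = τ (algebraMap (𝓞 K) K c) * eval₂ τ x Q := by
    rw [← eval₂_map, h, eval₂_mul, eval₂_C]
  have h2 : τ (algebraMap (𝓞 K) K c) ≠ 0 := by
    rw [map_ne_zero]
    exact fun h3 => hc ((FaithfulSMul.algebraMap_injective (𝓞 K) K) (by rw [h3, map_zero]))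
  rw [h1, mul_eq_zero, or_iff_right h2]

/-- Let `V = V(p)` be an irreducible affine variety over a number field `K`, and `U` a set of
coordinates which have no zeros on `V(ℂ)` and which generate the function field of `V`. Then the
following are equivalent:
* `V` is of logarithmic general type;
* for some proper closed subset `Z` of `V`, the sets `V(O_{L,S}) ∖ Z` are finite, for all finite
  extensions `L` of `K` and all finite `S`;
* for some proper closed subset `Z` of `V`, the nonconstant entire curves in `V` lie in `Z`;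
* for some proper closed subset `Z` of `V`, the nonconstant morphisms `𝔾ₘ → V` have image in `Z`;
* there is one proper closed subset `Z` with these three properties. -/
theorem result [NumberField K] (σ : K →+* ℂ) (p : Ideal (MvPolynomial (Fin n) K))
    (U : Finset (Fin n)) (hU : ∀ z ∈ Pts σ p, ∀ i ∈ U, z i ≠ 0) (hgen : GeneratedBy p U) :
    List.TFAE [OfLogGeneralType p,
      ∃ J : Ideal (MvPolynomial (Fin n) K), ¬ J ≤ p ∧ IntegralIn p J,
      ∃ J : Ideal (MvPolynomial (Fin n) K), ¬ J ≤ p ∧ EntireIn σ p J,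
      ∃ J : Ideal (MvPolynomial (Fin n) K), ¬ J ≤ p ∧ LaurentIn σ p J,
      ∃ J : Ideal (MvPolynomial (Fin n) K), ¬ J ≤ p ∧ IntegralIn p J ∧ EntireIn σ p J ∧
        LaurentIn σ p J] := by
  classical
  let _ : Algebra K ℂ := σ.toAlgebra
  obtain ⟨M, _, _, y, hy, hadj⟩ := hgen
  have hpts : ∀ (I : Ideal (MvPolynomial (Fin n) K)) (z : Fin n → ℂ),
      z ∈ Pts σ I ↔ ∀ Q ∈ I, aeval z Q = 0 := fun I z => Iff.rfl
  obtain ⟨H, hG⟩ := Pool.Agent.N754.LG.exists_gen U y hy hadj ℂ
    fun z hz i hi => hU z ((hpts p z).2 hz) i hi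
  have hprime := hG.prime
  -- equations with integral coefficients
  obtain ⟨T, F0, hF0⟩ := (Submodule.fg_iff_exists_fin_generating_family).1
    (IsNoetherian.noetherian p)
  have hF0' : Ideal.span (Set.range F0) = p := hF0
  choose c F hc hF using fun l => exists_clear (F0 l)
  have hzero : ∀ {R : Type} [Field R] (τ : K →+* R) (x : Fin n → R),
      (∀ l, eval₂ (τ.comp (algebraMap (𝓞 K) K)) x (F l) = 0) ↔ ∀ Q ∈ p, eval₂ τ x Q = 0 := by
    intro R _ τ x
    constructor
    · intro h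
      have h1 : Ideal.span (Set.range F0) ≤ RingHom.ker (eval₂Hom τ x) := by
        rw [Ideal.span_le]
        rintro _ ⟨l, rfl⟩
        exact (eval₂_clear (hc l) (hF l) τ x).1 (h l)
      rw [hF0'] at h1
      exact fun Q hQ => h1 hQ
    · intro h l
      refine (eval₂_clear (hc l) (hF l) τ x).2 (h _ ?_)
      rw [← hF0']
      exact Ideal.subset_span ⟨l, rfl⟩
  -- from Laurent curves to log general type
  have h41 : ∀ J : Ideal (MvPolynomial (Fin n) K), ¬ J ≤ p → LaurentIn σ p J →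
      OfLogGeneralType p := by
    intro J hJ hLJ
    by_contra hL
    obtain ⟨Q0, hQ0, hQ0p⟩ := SetLike.not_le_iff_exists.1 hJ
    obtain ⟨v, h1, h2, ⟨j, h3⟩, h4⟩ :=
      Pool.Agent.N754.LG.laurent_of_not' hG y hy hadj hL ℂ Q0 hQ0p
    apply h4
    exact (hpts J _).1 (hLJ v h1 (fun t ht => (hpts p _).2 fun Q hQ => h2 Q hQ t ht)
      ⟨2, 1, two_ne_zero, one_ne_zero, fun h => h3 (congrFun h j)⟩ 1 one_ne_zero) Q0 hQ0
  tfae_have 3 → 4 := by
    rintro ⟨J, hJ, h⟩
    refine ⟨J, hJ, ?_⟩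
    intro v hv hvF ⟨t, s, ht, hs, hne⟩ u hu
    have hd : Differentiable ℂ fun ζ => v (Complex.exp ζ) := by
      rw [differentiable_pi]
      intro j
      exact (Pool.Agent.W235.RM.Laur.expPoly (hv j)).1
    have h1 := h (fun ζ => v (Complex.exp ζ)) hd (fun z => hvF _ (Complex.exp_ne_zero z))
      ⟨Complex.log t, Complex.log s, by
        rw [Complex.exp_log ht, Complex.exp_log hs]
        exact hne⟩ (Complex.log u)
    rwa [Complex.exp_log hu] at h1
  tfae_have 2 → 4 := by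
    rintro ⟨J, hJ, h⟩
    obtain ⟨Q0, hQ0, hQ0p⟩ := SetLike.not_le_iff_exists.1 hJ
    obtain ⟨c0, G0, hc0, hG0⟩ := exists_clear Q0
    refine ⟨Ideal.span {Q0}, fun hle => hQ0p (hle (Ideal.mem_span_singleton_self _)), ?_⟩
    have hfin : FinitelyManyIntegral F (fun _ : Unit => G0) := by
      intro L _ _ _ S hS
      refine (h L S hS).subset ?_
      rintro x ⟨⟨hx1, hx2⟩, hx3⟩
      refine ⟨⟨hx1, (hzero (algebraMap K L) x).1 hx2⟩, fun hxJ => hx3 ⟨hx1, fun _ => ?_⟩⟩
      exact (eval₂_clear hc0 hG0 (algebraMap K L) x).2 (hxJ.2 Q0 hQ0)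
    have h1 := Pool.Agent.W235.RM.rec_of_integral F (fun _ : Unit => G0) hfin
    have h2 : Pool.Agent.W235.RM.GmCurvesIn σ F (fun _ : Unit => G0) :=
      ((Pool.Agent.W235.RM.tfae σ F (fun _ : Unit => G0)).out 5 1).1 h1
    intro v hv hvF hne t ht Q hQ
    have h3 := h2 v hv (fun l t ht => (hzero σ (v t)).2 (hvF t ht) l) (by
      obtain ⟨s, t, hs, ht, h⟩ := hne
      exact ⟨s, t, hs, ht, h⟩) () t ht
    rw [eval₂_clear hc0 hG0 σ] at h3
    obtain ⟨R, rfl⟩ := Ideal.mem_span_singleton'.1 hQ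
    rw [eval₂_mul, h3, mul_zero]
  tfae_have 4 → 1 := by
    rintro ⟨J, hJ, h⟩
    exact h41 J hJ h
  tfae_have 5 → 2 := fun ⟨J, hJ, h, _⟩ => ⟨J, hJ, h⟩
  tfae_have 5 → 3 := fun ⟨J, hJ, _, h, _⟩ => ⟨J, hJ, h⟩
  tfae_have 1 → 5 := by
    intro hL
    obtain ⟨H1, hH1, hLI1⟩ := Pool.Agent.N754.LG.laurIn_of_logGT (k := ℂ) Pool.Agent.N754.LG.wr
      Pool.Agent.N754.LG.emb Pool.Agent.N754.LG.rc hG hL
    obtain ⟨c0, G0, hc0, hG0⟩ := exists_clear (H1 * H)
    have hQ0p : H1 * H ∉ p := fun h => (hprime.mem_or_mem h).elim hH1 hG.notMem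
    have hspan : ∀ {R : Type} [Field R] (τ : K →+* R) (x : Fin n → R),
        (∀ Q ∈ Ideal.span {H1 * H}, eval₂ τ x Q = 0) ↔
          eval₂ (τ.comp (algebraMap (𝓞 K) K)) x G0 = 0 := by
      intro R _ τ x
      rw [eval₂_clear hc0 hG0 τ]
      constructor
      · intro h
        exact h _ (Ideal.mem_span_singleton_self _)
      · intro h Q hQ
        obtain ⟨R, rfl⟩ := Ideal.mem_span_singleton'.1 hQ
        rw [eval₂_mul, h, mul_zero]
    have hGm : Pool.Agent.W235.RM.GmCurvesIn σ F (fun _ : Unit => G0) := by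
      intro v hv hvF hne _ t ht
      obtain ⟨s1, s2, hs1, hs2, hs⟩ := hne
      have h1 : aeval (v t) H1 = 0 := hLI1 v hv
        (fun l s hs => (hzero σ (v s)).1 (fun i => hvF i s hs) l.1 l.2)
        ⟨s1, s2, hs1, hs2, hs⟩ () t ht
      rw [eval₂_clear hc0 hG0 σ, eval₂_mul]
      have h2 : eval₂ σ (v t) H1 = 0 := h1
      rw [h2, zero_mul]
    have hal : Pool.Agent.N754.LT.Alone σ F (fun _ : Unit => G0) U := by
      intro z z' hz hz' hzU hG'
      obtain ⟨_, hl⟩ := hG'
      refine hG.alone ℂ z z' ((hzero σ z).1 hz) ((hzero σ z').1 hz') ?_ hzU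
      intro h0
      apply hl
      rw [eval₂_clear hc0 hG0 σ, eval₂_mul]
      have h2 : eval₂ σ z H = 0 := h0
      rw [h2, mul_zero]
    have hU' : ∀ z : Fin n → ℂ, (∀ l, eval₂ (σ.comp (algebraMap (𝓞 K) K)) z (F l) = 0) →
        ∀ i ∈ U, z i ≠ 0 := fun z hz i hi => hU z ((hzero σ z).1 hz) i hi
    have hent := Pool.Agent.N754.LT.entire_of_alone σ F (fun _ : Unit => G0) U hU' hal hGm
    have hint := Pool.Agent.N754.LT.integral_of_alone σ F (fun _ : Unit => G0) U hU' hal
      fun h2 => Pool.Agent.W235.RM.not_gm_of_hasLaurent σ F (fun _ : Unit => G0) h2 hGm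
    refine ⟨Ideal.span {H1 * H}, fun h => hQ0p (h (Ideal.mem_span_singleton_self _)), ?_, ?_, ?_⟩
    · intro L _ _ _ S hS
      refine (hint L S hS).subset ?_
      rintro x ⟨⟨hx1, hx2⟩, hx3⟩
      refine ⟨⟨hx1, (hzero (algebraMap K L) x).2 hx2⟩, fun hxJ => hx3 ⟨hx1, ?_⟩⟩
      exact (hspan (algebraMap K L) x).2 (hxJ.2 ())
    · intro f hf1 hf2 hf3 z
      exact (hspan σ (f z)).2 (hent f hf1 (fun z l => (hzero σ (f z)).2 (hf2 z) l) hf3 z ())
    · intro v hv hvF hne t ht
      obtain ⟨s1, s2, hs1, hs2, hs⟩ := hne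
      exact (hspan σ (v t)).2 (hGm v hv (fun l t ht => (hzero σ (v t)).2 (hvF t ht) l)
        ⟨s1, s2, hs1, hs2, hs⟩ () t ht)
  tfae_finish

end Pool.Agent.Results.MP_464c42_nt.LogGeneralType
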