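import Pool.Agent.N656.PL.Lower

/-!
# Almost all the complete intersections in `(ℙ¹)ⁿ` have no integral point off infinity

A system `F = (F₁, …, F_c)` of polynomials of degree at most `a i` in `x i` defines the closed
subscheme `F = 0` of the affine space over `ℤ`, whose closure lies in `(ℙ¹)ⁿ`; the divisor at
infinity is the union of the `x i = ∞`. The proportion of the systems with coefficients of absolute
value at most `H` which have an integral point (of any size) has the exact order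
`H ^ (-c) (1 + log H) ^ k`, where `k` is the number of the `i` with `c * a i = 1`.
-/

set_option autoImplicit false

open Finset

namespace Pool.Agent.Results.MP_464c42_nt.RandomCompleteIntersections

open Pool.Agent.N656.PL

/-- the systems of `c` polynomials with integer coefficients of absolute value at most `H` and of
degree at most `a i` in the variable `x i` -/
def Sys {n : ℕ} (a : Fin n → ℕ) (c H : ℕ) : Set (Fin c → MvPolynomial (Fin n) ℤ) :=
  {F | ∀ j, (∀ i, (F j).degreeOf i ≤ a i) ∧ ∀ m, |(F j).coeff m| ≤ (H : ℤ)}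

/-- the systems in `Sys a c H` which have a common zero with integer coordinates (of any size) -/
def Sol {n : ℕ} (a : Fin n → ℕ) (c H : ℕ) : Set (Fin c → MvPolynomial (Fin n) ℤ) :=
  {F | F ∈ Sys a c H ∧ ∃ x : Fin n → ℤ, ∀ j, MvPolynomial.eval x (F j) = 0}

/-- the exponent as a finitely supported function -/
noncomputable def fs {n : ℕ} (a : Fin n → ℕ) (e : E a) : Fin n →₀ ℕ :=
  Finsupp.equivFunOnFinite.symm fun i => (e i : ℕ)

lemma fs_apply {n : ℕ} (a : Fin n → ℕ) (e : E a) (i : Fin n) : fs a e i = (e i : ℕ) := rfl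

lemma fs_inj {n : ℕ} (a : Fin n → ℕ) : Function.Injective (fs a) := by
  intro e e' h
  funext i
  exact Fin.ext (by rw [← fs_apply, ← fs_apply, h])

/-- the polynomial with given coefficients -/
noncomputable def pol {n : ℕ} (a : Fin n → ℕ) (H : ℕ) (u : E a → Bx H) : MvPolynomial (Fin n) ℤ :=
  ∑ e : E a, MvPolynomial.monomial (fs a e) (gv H (u e))

lemma coeff_pol {n : ℕ} (a : Fin n → ℕ) (H : ℕ) (u : E a → Bx H) (e : E a) :
    (pol a H u).coeff (fs a e) = gv H (u e) := by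
  classical
  unfold pol
  rw [MvPolynomial.coeff_sum, Finset.sum_eq_single e]
  · rw [MvPolynomial.coeff_monomial, if_pos rfl]
  · intro e' _ he'
    rw [MvPolynomial.coeff_monomial, if_neg fun h => he' (fs_inj a h)]
  · intro h
    exact absurd (mem_univ _) h

lemma coeff_pol_of_ne {n : ℕ} (a : Fin n → ℕ) (H : ℕ) (u : E a → Bx H) (m : Fin n →₀ ℕ)
    (hm : ∀ e, fs a e ≠ m) : (pol a H u).coeff m = 0 := by
  classical
  unfold pol
  rw [MvPolynomial.coeff_sum]
  refine Finset.sum_eq_zero fun e _ => ?_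
  rw [MvPolynomial.coeff_monomial, if_neg (hm e)]

lemma eval_pol {n : ℕ} (a : Fin n → ℕ) (H : ℕ) (u : E a → Bx H) (x : Fin n → ℤ) :
    MvPolynomial.eval x (pol a H u) = ev a (gv H) u x := by
  unfold pol ev
  rw [map_sum]
  refine Finset.sum_congr rfl fun e _ => ?_
  rw [MvPolynomial.eval_monomial, Finsupp.prod_fintype _ _ (fun i => pow_zero _)]
  rfl

lemma pol_inj {n : ℕ} (a : Fin n → ℕ) (H : ℕ) : Function.Injective (pol a H) := by
  intro u v h
  funext e
  have h1 := coeff_pol a H u e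
  rw [h, coeff_pol a H v e] at h1
  exact Subtype.ext h1.symm

lemma pol_mem {n : ℕ} (a : Fin n → ℕ) (H : ℕ) (u : E a → Bx H) :
    (∀ i, (pol a H u).degreeOf i ≤ a i) ∧ ∀ m, |(pol a H u).coeff m| ≤ (H : ℤ) := by
  classical
  constructor
  · intro i
    rw [MvPolynomial.degreeOf_le_iff]
    intro m hm
    rw [MvPolynomial.mem_support_iff] at hm
    by_contra hcon
    refine hm (coeff_pol_of_ne a H u m fun e he => hcon ?_)
    rw [← he, fs_apply]
    have := (e i).isLt
    omega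
  · intro m
    by_cases h : ∃ e, fs a e = m
    · obtain ⟨e, rfl⟩ := h
      rw [coeff_pol]
      have := mem_Icc.1 (u e).2
      exact abs_le.2 this
    · push Not at h
      rw [coeff_pol_of_ne a H u m h]
      simp

lemma pol_surj {n : ℕ} (a : Fin n → ℕ) (H : ℕ) (F : MvPolynomial (Fin n) ℤ)
    (h1 : ∀ i, F.degreeOf i ≤ a i) (h2 : ∀ m, |F.coeff m| ≤ (H : ℤ)) : ∃ u, pol a H u = F := by
  classical
  refine ⟨fun e => ⟨F.coeff (fs a e), mem_Icc.2 (abs_le.1 (h2 _))⟩, ?_⟩
  ext m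
  by_cases h : ∃ e, fs a e = m
  · obtain ⟨e, rfl⟩ := h
    rw [coeff_pol]
    rfl
  · push Not at h
    rw [coeff_pol_of_ne a H _ m h]
    symm
    by_contra hne
    have h3 : ∀ i, m i ≤ a i := by
      intro i
      exact MvPolynomial.degreeOf_le_iff.1 (h1 i) m (MvPolynomial.mem_support_iff.2 hne)
    refine h (fun i => ⟨m i, by have := h3 i; omega⟩) ?_
    ext i
    rfl

lemma card_E {n : ℕ} (a : Fin n → ℕ) : Fintype.card (E a) = ∏ i, (a i + 1) := by
  unfold E
  rw [Fintype.card_pi]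
  refine Finset.prod_congr rfl fun i _ => ?_
  rw [Fintype.card_fin]

lemma sys_eq {n : ℕ} (a : Fin n → ℕ) (c H : ℕ) :
    Sys a c H = (fun (u : Fin c → E a → Bx H) (j : Fin c) => pol a H (u j)) '' Set.univ := by
  ext F
  constructor
  · intro hF
    choose u hu using fun j => pol_surj a H (F j) (hF j).1 (hF j).2
    exact ⟨u, Set.mem_univ _, funext hu⟩
  · rintro ⟨u, -, rfl⟩
    exact fun j => pol_mem a H (u j)

lemma sol_eq {n : ℕ} (a : Fin n → ℕ) (c H : ℕ) :
    Sol a c H = (fun (u : Fin c → E a → Bx H) (j : Fin c) => pol a H (u j)) ''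
      (Bad a c (gv H) : Set (Fin c → E a → Bx H)) := by
  ext F
  constructor
  · rintro ⟨hF, x, hx⟩
    rw [sys_eq] at hF
    obtain ⟨u, -, rfl⟩ := hF
    refine ⟨u, ?_, rfl⟩
    rw [mem_coe, mem_Bad]
    refine ⟨x, fun j => ?_⟩
    rw [← eval_pol]
    exact hx j
  · rintro ⟨u, hu, rfl⟩
    rw [mem_coe, mem_Bad] at hu
    obtain ⟨x, hx⟩ := hu
    refine ⟨fun j => pol_mem a H (u j), x, fun j => ?_⟩
    rw [eval_pol]
    exact hx j

lemma sysmap_inj {n : ℕ} (a : Fin n → ℕ) (c H : ℕ) :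
    Function.Injective (fun (u : Fin c → E a → Bx H) (j : Fin c) => pol a H (u j)) := by
  intro u v h
  funext j
  exact pol_inj a H (congrFun h j)

lemma ncard_sys {n : ℕ} (a : Fin n → ℕ) (c H : ℕ) :
    (Sys a c H).ncard = (2 * H + 1) ^ (c * ∏ i, (a i + 1)) := by
  rw [sys_eq, Set.ncard_image_of_injective _ (sysmap_inj a c H), Set.ncard_univ,
    Nat.card_eq_fintype_card, Fintype.card_fun, Fintype.card_fun, card_Bx, Fintype.card_fin,
    card_E, ← pow_mul, mul_comm c]

lemma ncard_sol {n : ℕ} (a : Fin n → ℕ) (c H : ℕ) :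
    (Sol a c H).ncard = (Bad a c (gv H)).card := by
  rw [sol_eq, Set.ncard_image_of_injective _ (sysmap_inj a c H), Set.ncard_coe_finset]

/-- **The proportion of the systems with an integral point.** Let `c ≥ 1` and let
`a : Fin n → ℕ` be arbitrary. There are `(2H+1) ^ (c ∏ (a i + 1))` systems `F` of `c` polynomials
in `ℤ[x₁, …, xₙ]` of degree at most `a i` in `x i` and with coefficients of absolute value at most
`H`. The proportion of those which have a common zero in `ℤⁿ` lies between two positive constants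
times `H ^ (-c) (1 + log H) ^ k`, where `k` is the number of the `i` with `c * a i = 1`. -/
theorem result (n c : ℕ) (hc : 1 ≤ c) (a : Fin n → ℕ) :
    (∀ H : ℕ, (Sys a c H).ncard = (2 * H + 1) ^ (c * ∏ i, (a i + 1))) ∧
    ∃ c₁ C₁ : ℝ, 0 < c₁ ∧ 0 < C₁ ∧ ∀ H : ℕ, 1 ≤ H →
      c₁ * ((1 + Real.log H) ^ (univ.filter fun i => c * a i = 1).card / (H : ℝ) ^ c) ≤
        ((Sol a c H).ncard : ℝ) / (Sys a c H).ncard ∧
      ((Sol a c H).ncard : ℝ) / (Sys a c H).ncard ≤
        C₁ * ((1 + Real.log H) ^ (univ.filter fun i => c * a i = 1).card / (H : ℝ) ^ c) := by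
  refine ⟨fun H => ncard_sys a c H, ?_⟩
  obtain ⟨c₁, hc₁, hlow⟩ := lower a c hc
  obtain ⟨C, hC, hup⟩ := upper n a c hc 3 (by norm_num)
  obtain ⟨M, hM⟩ : ∃ M : ℕ, M = Fintype.card (E a) := ⟨_, rfl⟩
  have hM1 : 1 ≤ M := by rw [hM]; exact Fintype.card_pos_iff.2 ⟨top a⟩
  rw [← hM] at hlow
  refine ⟨c₁ / 3 ^ (M * c), C + 1, by positivity, by linarith, fun H hH => ?_⟩
  have hHR : (1 : ℝ) ≤ H := by exact_mod_cast hH
  have hlH : 0 ≤ Real.log H := Real.log_nonneg hHR
  have hH0 : (0 : ℝ) < H := by linarith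
  have h1 := hlow H hH
  have h2 := hup (Bx H) (gv H) H hHR (spread_gv H hH)
  rw [card_Bx, ← hM] at h2
  rw [ncard_sys, ncard_sol, ← card_E, ← hM, mul_comm c M]
  push_cast at h2 ⊢
  change c₁ / 3 ^ (M * c) * ((1 + Real.log H) ^ ex a c / (H : ℝ) ^ c) ≤ _ ∧
    _ ≤ (C + 1) * ((1 + Real.log H) ^ ex a c / (H : ℝ) ^ c)
  obtain ⟨Lg, hLg⟩ : ∃ Lg : ℝ, Lg = (1 + Real.log H) ^ ex a c := ⟨_, rfl⟩
  have hLg0 : 0 ≤ Lg := by rw [hLg]; positivity
  rw [← hLg] at h1 h2 ⊢
  constructor
  · rw [le_div_iff₀ (by positivity)]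
    have h3 : (2 * (H : ℝ) + 1) ^ (M * c) ≤ 3 ^ (M * c) * (H : ℝ) ^ (M * c) := by
      rw [← mul_pow]
      gcongr
      linarith
    have h4 : (H : ℝ) ^ (M * c) = (H : ℝ) ^ ((M - 1) * c) * (H : ℝ) ^ c := by
      rw [← pow_add]
      congr 1
      obtain ⟨m, rfl⟩ : ∃ m, M = m + 1 := ⟨M - 1, by omega⟩
      rw [Nat.add_sub_cancel]
      ring
    calc c₁ / 3 ^ (M * c) * (Lg / (H : ℝ) ^ c) * (2 * (H : ℝ) + 1) ^ (M * c)
        ≤ c₁ / 3 ^ (M * c) * (Lg / (H : ℝ) ^ c) * (3 ^ (M * c) * (H : ℝ) ^ (M * c)) := by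
          gcongr
      _ = c₁ * (H : ℝ) ^ ((M - 1) * c) * Lg := by
          rw [h4]
          field_simp
      _ ≤ _ := h1
  · rw [div_le_iff₀ (by positivity)]
    have h3 : ((Bad a c (gv H)).card : ℝ) ≤
        C * (2 * (H : ℝ) + 1) ^ (M * c) * Lg / (H : ℝ) ^ c := by
      rw [le_div_iff₀ (by positivity)]
      exact h2
    refine h3.trans ?_
    have h4 : C * (2 * (H : ℝ) + 1) ^ (M * c) * Lg / (H : ℝ) ^ c =
        C * (Lg / (H : ℝ) ^ c) * (2 * (H : ℝ) + 1) ^ (M * c) := by ring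
    rw [h4]
    have h5 : 0 ≤ Lg / (H : ℝ) ^ c := by positivity
    gcongr
    linarith

end Pool.Agent.Results.MP_464c42_nt.RandomCompleteIntersections
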